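import Pool.Agent.helper80.SV.Spec

/-! # sv:RST (helper70): restriction to the hyperplane X z = 0 -/

set_option autoImplicit false

namespace Pool.Agent.SV

open MvPolynomial Module

theorem RST_eval {ι : Type} [Fintype ι] [DecidableEq ι] (z : ι) (r : MvPolynomial ι ℂ)
    (h : ∀ m, coeff m r ≠ 0 → m z = 0) (w : ι → ℂ) :
    eval (cut (Finset.univ.erase z) w) r = eval w r := by
  rw [MvPolynomial.eval_eq, MvPolynomial.eval_eq]
  refine Finset.sum_congr rfl ?_
  intro m hm
  have hmz : m z = 0 := h m (MvPolynomial.mem_support_iff.1 hm)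
  congr 1
  refine Finset.prod_congr rfl ?_
  intro i hi
  have hiz : i ≠ z := by
    intro h
    rw [h, Finsupp.mem_support_iff] at hi
    exact hi hmz
  have : cut (Finset.univ.erase z) w i = w i := by
    unfold cut
    rw [if_pos (Finset.mem_erase.2 ⟨hiz, Finset.mem_univ i⟩)]
  rw [this]

theorem RST_1 {ι κ : Type} [Fintype ι] [DecidableEq ι] [Fintype κ] [DecidableEq κ] (c : ι → κ)
    (z : ι) (d : κ → ℕ) (g : MvPolynomial ι ℂ) (hg : g ∈ Sec c Finset.univ d)
    (hv : ∀ w : ι → ℂ, eval (cut (Finset.univ.erase z) w) g = 0) :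
    ∃ g' ∈ Sec c Finset.univ (low d (c z)), g = X z * g' := by
  have hdec : X z * (divMonomial g (Finsupp.single z 1)) + modMonomial g (Finsupp.single z 1) = g :=
    divMonomial_add_modMonomial_single g z
  have hr : modMonomial g (Finsupp.single z 1) = 0 := by
    apply MvPolynomial.funext
    intro w
    have hc : ∀ m, coeff m (modMonomial g (Finsupp.single z 1)) ≠ 0 → m z = 0 := by
      intro m hm
      by_contra hmz
      apply hm
      apply coeff_modMonomial_of_le
      rw [Finsupp.single_le_iff]
      omega
    rw [← RST_eval z _ hc w]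
    have h1 := hv w
    rw [← hdec, map_add, map_mul, eval_X] at h1
    have h2 : cut (Finset.univ.erase z) w z = 0 := by
      unfold cut
      rw [if_neg (by simp)]
    rw [h2, zero_mul, zero_add] at h1
    rw [h1, map_zero]
  refine ⟨divMonomial g (Finsupp.single z 1), ?_, ?_⟩
  · rw [mem_Sec] at hg ⊢
    intro m hm
    rw [coeff_divMonomial] at hm
    have h1 := hg _ hm
    refine ⟨fun i hi => absurd (Finset.mem_univ i) hi, ?_⟩
    intro k
    have h2 := h1.2 k
    simp only [Finsupp.add_apply, Finset.sum_add_distrib] at h2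
    unfold low
    by_cases hk : k = c z
    · subst hk
      rw [Function.update_self]
      have h3 : ∑ i ∈ Finset.univ.filter (fun i => c i = c z), (Finsupp.single z 1 : ι →₀ ℕ) i = 1 := by
        rw [Finset.sum_eq_single z]
        · simp
        · intro b _ hb
          rw [Finsupp.single_eq_of_ne hb]
        · intro hz
          exfalso
          apply hz
          rw [Finset.mem_filter]
          exact ⟨Finset.mem_univ z, rfl⟩
      rw [h3] at h2
      omega
    · rw [Function.update_of_ne hk]
      have h3 : ∑ i ∈ Finset.univ.filter (fun i => c i = k), (Finsupp.single z 1 : ι →₀ ℕ) i = 0 := by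
        apply Finset.sum_eq_zero
        intro b hb
        have hbz : b ≠ z := by
          intro h
          rw [Finset.mem_filter] at hb
          apply hk
          rw [← hb.2, h]
        rw [Finsupp.single_eq_of_ne hbz]
      rw [h3] at h2
      omega
  · rw [hr, add_zero] at hdec
    exact hdec.symm

theorem RST_2 (hEUL : EUL_stmt) {ι κ : Type} [Fintype ι] [DecidableEq ι] [Fintype κ]
    [DecidableEq κ] (c : ι → κ) (z : ι) (d : κ → ℕ) (g' : MvPolynomial ι ℂ)
    (hg : g' ∈ Sec c Finset.univ d) (k : κ) (hk : k ≠ c z) (hd : 1 ≤ d k) (s : ι → ℂ)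
    (hs : s z ≠ 0) (h : ∀ i, eval s (pderiv i (X z * g')) = 0) (i : ι) :
    eval s (pderiv i g') = 0 := by
  have h1 : ∀ i, i ≠ z → eval s (pderiv i g') = 0 := by
    intro i hi
    have h2 := h i
    rw [Derivation.leibniz, pderiv_X_of_ne hi.symm] at h2
    simp only [smul_eq_mul, mul_zero, add_zero, map_mul, eval_X] at h2
    rcases mul_eq_zero.1 h2 with h3 | h3
    · exact absurd h3 hs
    · exact h3
  by_cases hi : i = z
  · subst hi
    have h2 := hEUL c Finset.univ d g' hg k s
    have h3 : ∑ j ∈ Finset.univ.filter (fun j => c j = k), s j * eval s (pderiv j g') = 0 := by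
      apply Finset.sum_eq_zero
      intro j hj
      have hji : j ≠ i := by
        intro h
        rw [Finset.mem_filter] at hj
        apply hk
        rw [← hj.2, h]
      rw [h1 j hji, mul_zero]
    rw [h3] at h2
    have h4 : eval s g' = 0 := by
      rcases mul_eq_zero.1 h2.symm with h5 | h5
      · exfalso
        have : (d k : ℂ) ≠ 0 := by
          exact_mod_cast (by omega : d k ≠ 0)
        exact this h5
      · exact h5
    have h5 := h i
    rw [Derivation.leibniz, pderiv_X_self] at h5
    simp only [smul_eq_mul, mul_one, map_add, map_mul, eval_X] at h5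
    rw [h4, add_zero] at h5
    rcases mul_eq_zero.1 h5 with h6 | h6
    · exact absurd h6 hs
    · exact h6
  · exact h1 i hi

theorem RST (hEUL : EUL_stmt) : RST_stmt := by
  intro ι κ _ _ _ _ c z d
  refine ⟨fun g hg hv => RST_1 c z d g hg hv, ?_⟩
  intro g' hg k hk hd s hs h i
  exact RST_2 hEUL c z d g' hg k hk hd s hs h i

end Pool.Agent.SV
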