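import Pool.Agent.helper80.SV.Spec3

/-! # sv:ZB (helper70): comparison of the definitions for natural and integral degrees -/

set_option autoImplicit false

namespace Pool.Agent.SV

open MvPolynomial Module

theorem ZB_hom {k : ℕ} (n : Fin k → ℕ) (e : Fin k → ℕ) :
    MultiHomZ n (fun i => (e i : ℤ)) = MultiHom n e := by
  ext f
  change (∀ m, coeff m f ≠ 0 → ∀ i, ∑ j : Fin (n i + 1), (m ⟨i, j⟩ : ℤ) = (e i : ℤ)) ↔
    (∀ m, coeff m f ≠ 0 → ∀ i, ∑ j : Fin (n i + 1), m ⟨i, j⟩ = e i)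
  constructor
  · intro h m hm i
    exact_mod_cast h m hm i
  · intro h m hm i
    exact_mod_cast h m hm i

theorem ZB_ind {k : ℕ} (n : Fin k → ℕ) (e : Fin k → ℕ) (r : ℕ) :
    (IndependentZ n (fun i => (e i : ℤ)) : (Fin r → Var n → ℂ) → Prop) = Independent n e := by
  funext p
  unfold IndependentZ Independent SysZ Sys
  rw [ZB_hom]

theorem ZB_special {k : ℕ} (n : Fin k → ℕ) (e : Fin k → ℕ) :
    SpecialZ n (fun i => (e i : ℤ)) ↔ Special n e := by
  unfold SpecialZ Special
  refine exists_congr fun r => and_congr Iff.rfl ?_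
  rw [ZB_ind]

theorem ZB_crit {k : ℕ} (n : Fin k → ℕ) (e : Fin k → ℕ) :
    CritZ n (fun i => (e i : ℤ)) ↔
      ((∃ i, e i = 0) ∧ 2 ≤ ∑ i, e i) ∨ ((∀ i, 1 ≤ e i) ∧ Crit n e) := by
  unfold CritZ Crit
  beta_reduce
  refine or_congr ?_ (and_congr ?_ (or_congr ?_ ?_))
  · constructor
    · rintro ⟨-, ⟨i, hi⟩, h⟩
      exact ⟨⟨i, by exact_mod_cast hi⟩, by exact_mod_cast h⟩
    · rintro ⟨⟨i, hi⟩, h⟩
      exact ⟨fun j => Int.natCast_nonneg _, ⟨i, by exact_mod_cast hi⟩, by exact_mod_cast h⟩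
  · refine forall_congr' fun i => ?_
    constructor
    · intro h
      exact_mod_cast h
    · intro h
      exact_mod_cast h
  · refine and_congr Iff.rfl (exists_congr fun l => and_congr Iff.rfl (and_congr ?_ ?_))
    · refine forall_congr' fun i => imp_congr Iff.rfl ?_
      constructor
      · intro h
        exact_mod_cast h
      · intro h
        exact_mod_cast h
    · exact Int.even_coe_nat _
  · refine and_congr Iff.rfl (exists_congr fun l => and_congr Iff.rfl (and_congr ?_ ?_))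
    · refine forall_congr' fun i => imp_congr Iff.rfl ?_
      constructor
      · intro h
        exact_mod_cast h
      · intro h
        exact_mod_cast h
    · refine exists_congr fun r => and_congr Iff.rfl ?_
      exact Nat.cast_inj

theorem ZB_neg {k : ℕ} (n : Fin k → ℕ) (d : Fin k → ℤ) (hd : ∃ i, d i < 0) :
    ¬ SpecialZ n d ∧ ¬ CritZ n d := by
  obtain ⟨i, hi⟩ := hd
  have hbot : MultiHomZ n d = ⊥ := by
    rw [eq_bot_iff]
    intro f hf
    rw [Submodule.mem_bot]
    by_contra hne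
    obtain ⟨m, hm⟩ := MvPolynomial.ne_zero_iff.1 hne
    have h1 : ∑ j : Fin (n i + 1), (m ⟨i, j⟩ : ℤ) = d i := hf m hm i
    have h2 : (0 : ℤ) ≤ ∑ j : Fin (n i + 1), (m ⟨i, j⟩ : ℤ) :=
      Finset.sum_nonneg fun j _ => Int.natCast_nonneg _
    omega
  constructor
  · rintro ⟨r, -, hG⟩
    apply hG
    refine ⟨1, one_ne_zero, ?_⟩
    intro p _ _
    unfold IndependentZ SysZ
    rw [hbot, bot_inf_eq, finrank_bot, Nat.zero_sub]
  · rintro (⟨h, -⟩ | ⟨h, -⟩)
    · exact absurd (h i) (not_le.2 hi)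
    · have := h i
      omega

theorem ZB : ZB_stmt := by
  intro k n
  exact ⟨fun e => ⟨ZB_special n e, ZB_crit n e⟩, fun d hd => ZB_neg n d hd⟩

end Pool.Agent.SV
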